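import Pool.Agent.WR4.Stmts

/-!
# Squad WR4, row SHT: short paths on average
-/

set_option autoImplicit false

namespace Pool.Agent.WR4.H19

open Pool.Agent.WIR Pool.Agent.WR2 Pool.Agent.WR3 Pool.Agent.WR4
open scoped BigOperators ENNReal Topology
open Filter

/-- the sum over a period of a function of lower level -/
theorem sum_lv (hAva : AvaStmt) {r N : ℕ} {f : ℕ → ℝ} (hf : Lv r f) (hr : r ≤ N) :
    ∑ a ∈ Finset.Icc 1 (3 ^ N), f a = 3 ^ N * av r f := by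
  have h := (hAva.1 r N f hf hr).2
  rw [← h, av]
  have h3 : (3 : ℝ) ^ N ≠ 0 := by positivity
  field_simp

/-- the sum over a period of the number of the predecessors -/
theorem sum_uT (hSmu : SmuStmt) (hAva : AvaStmt) {τ l N : ℕ} (hl : l ≤ N) :
    ∑ a ∈ Finset.Icc 1 (3 ^ N), (uT τ l a : ℝ) = 3 ^ N * ((τ.choose l : ℝ) / 3 ^ l) := by
  have hlv : Lv l (fun a => (uT τ l a : ℝ)) := by
    intro a ha
    have h := hSmu.2.1 τ l a 1 ha
    rw [one_mul] at h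
    simp only [h]
  rw [sum_lv hAva hlv hl, av]
  have h := hSmu.1 τ l
  have h' : ∑ a ∈ Finset.Icc 1 (3 ^ l), (uT τ l a : ℝ) = (τ.choose l : ℝ) := by
    exact_mod_cast h
  rw [h']

theorem mx_le {x : ℝ} {t : ℕ} (hx : 1 ≤ x) (ht : 60 * Real.log x ≤ t * Real.log 2) :
    mx x ≤ t := by
  have h1 : mx x ≤ Nat.log 2 ⌊x⌋₊ := Nat.findGreatest_le _
  have h2 : Nat.log 2 ⌊x⌋₊ ≤ t := by
    have hf : ⌊x⌋₊ ≠ 0 := by
      have : 1 ≤ ⌊x⌋₊ := Nat.le_floor (by simpa using hx)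
      omega
    have h3 : 2 ^ (Nat.log 2 ⌊x⌋₊) ≤ ⌊x⌋₊ := Nat.pow_log_le_self 2 hf
    have h4 : (2 : ℝ) ^ (Nat.log 2 ⌊x⌋₊) ≤ x := by
      have h5 : ((2 ^ (Nat.log 2 ⌊x⌋₊) : ℕ) : ℝ) ≤ (⌊x⌋₊ : ℝ) := by exact_mod_cast h3
      rw [Nat.cast_pow, Nat.cast_ofNat] at h5
      exact h5.trans (Nat.floor_le (by linarith))
    have h6 : (Nat.log 2 ⌊x⌋₊ : ℝ) * Real.log 2 ≤ Real.log x := by
      rw [← Real.log_pow]
      exact Real.log_le_log (by positivity) h4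
    have h7 : 0 ≤ Real.log x := Real.log_nonneg hx
    have h8 : 0 < Real.log 2 := Real.log_pos (by norm_num)
    have h9 : (Nat.log 2 ⌊x⌋₊ : ℝ) * Real.log 2 ≤ t * Real.log 2 := by linarith
    exact_mod_cast le_of_mul_le_mul_right h9 h8
  exact h1.trans h2

theorem le_mx {x : ℝ} {m : ℕ} (hx : (2 : ℝ) ^ (m ^ 6) ≤ x) : m ≤ mx x := by
  have h1 : 2 ^ (m ^ 6) ≤ ⌊x⌋₊ := by
    apply Nat.le_floor
    push_cast
    exact hx
  have h2 : m ^ 6 ≤ Nat.log 2 ⌊x⌋₊ := by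
    have h3 := Nat.log_mono_right (b := 2) h1
    rwa [Nat.log_pow (by norm_num)] at h3
  have h3 : m ≤ m ^ 6 := Nat.le_self_pow (by norm_num) m
  exact Nat.le_findGreatest (h3.trans h2) h2

open Classical in
theorem sht (hMcr : McrStmt) (hShr : ShrStmt) (hShp : ShpStmt) (hSmu : SmuStmt)
    (hAva : AvaStmt) (hWrb : WrbStmt) (hVrb : VrbStmt) : ShtStmt := by
  intro σ hσ ε hε
  have hσ0 : 0 < σ := hσ.1
  obtain ⟨C, hC1, hC⟩ := hVrb.2 1
  obtain ⟨m0, hm0⟩ := exists_nat_gt (4 * σ * C / ε)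
  refine ⟨m0, fun m hm => ?_⟩
  set δ : ℝ := ε / (2 * (2 * σ + 5)) with hδdef
  have hδ : 0 < δ := by positivity
  obtain ⟨x1, hx1, h1⟩ := hMcr σ hσ 1 one_pos
  obtain ⟨x2, hx2, h2⟩ := hMcr σ hσ δ hδ
  obtain ⟨x3, hx3, h3⟩ := hShr σ hσ δ hδ
  obtain ⟨x4, hx4, h4⟩ := hShp δ hδ
  refine ⟨max (max (max x1 x2) (max x3 x4)) ((2 : ℝ) ^ (m ^ 6)), ?_, ?_⟩
  · exact hx1.trans ((le_max_left _ _).trans ((le_max_left _ _).trans (le_max_left _ _)))
  intro x t N hx ht hN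
  have hxa : x1 ≤ x := ((le_max_left _ _).trans ((le_max_left _ _).trans (le_max_left _ _))).trans hx
  have hxb : x2 ≤ x := ((le_max_right _ _).trans ((le_max_left _ _).trans (le_max_left _ _))).trans hx
  have hxc : x3 ≤ x := ((le_max_left _ _).trans ((le_max_right _ _).trans (le_max_left _ _))).trans hx
  have hxd : x4 ≤ x := ((le_max_right _ _).trans ((le_max_right _ _).trans (le_max_left _ _))).trans hx
  have hxe : (2 : ℝ) ^ (m ^ 6) ≤ x := (le_max_right _ _).trans hx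
  have hx1' : 1 ≤ x := hx1.trans hxa
  have hx0 : 0 < x := by linarith
  have g1 := h1 x t hxa ht
  have g2 := h2 x t hxb ht
  have g3 := h3 x t hxc ht
  have g4 := h4 x t N hxd hN
  have hmm : m ≤ mx x := le_mx hxe
  have hmt : mx x ≤ t := mx_le hx1' ht
  have hmN : mx x ≤ N := hmt.trans hN
  have h3N : (0 : ℝ) < 3 ^ N := by positivity
  set w : ℕ → ℝ := wr (mx x) with hw
  set P : ℝ := ∑ τ ∈ Finset.range t, ∑ l ∈ Finset.range (τ + 1),
      (if (2 : ℝ) ^ τ ≤ x * 3 ^ l ∧ TP (mx x) τ l then (τ.choose l : ℝ) / 3 ^ l else 0) with hP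
  set R : ℝ := ∑ τ ∈ Finset.range t, ∑ l ∈ Finset.range (τ + 1),
      (if (2 : ℝ) ^ τ ≤ x * 3 ^ l ∧ ¬ TP (mx x) τ l then (τ.choose l : ℝ) / 3 ^ l else 0) with hR
  have hR0 : 0 ≤ R := by
    rw [hR]
    refine Finset.sum_nonneg fun τ _ => Finset.sum_nonneg fun l _ => ?_
    split_ifs
    · positivity
    · exact le_rfl
  have hPR : TM t x = P + R := by
    rw [hP, hR, TM, ← Finset.sum_add_distrib]
    refine Finset.sum_congr rfl fun τ _ => ?_
    rw [← Finset.sum_add_distrib]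
    refine Finset.sum_congr rfl fun l _ => ?_
    by_cases hA : (2 : ℝ) ^ τ ≤ x * 3 ^ l <;> by_cases hB : TP (mx x) τ l <;> simp [hA, hB]
  have hPx : |P - 2 * σ * x| ≤ 2 * δ * x := by
    have e : P - 2 * σ * x = (TM t x - 2 * σ * x) - R := by rw [hPR]; ring
    rw [e]
    refine (abs_sub _ _).trans ?_
    rw [abs_of_nonneg hR0]
    linarith
  -- the pointwise inequality
  have hpt : ∀ a, |SH t a x - 2 * σ * x * wr m a| ≤
      (∑ τ ∈ Finset.range t, ∑ l ∈ Finset.range (τ + 1),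
        (if (2 : ℝ) ^ τ ≤ x * 3 ^ l ∧ TP (mx x) τ l then
          |(uT τ l a : ℝ) - (τ.choose l : ℝ) / 3 ^ l * w a| else 0)) +
      (∑ τ ∈ Finset.range t, ∑ l ∈ Finset.range (τ + 1),
        (if (2 : ℝ) ^ τ ≤ x * 3 ^ l ∧ ¬ TP (mx x) τ l then (uT τ l a : ℝ) else 0)) +
      |P - 2 * σ * x| * w a + 2 * σ * x * VR m (mx x) a := by
    intro a
    have e : SH t a x - 2 * σ * x * wr m a = (SH t a x - P * w a) + (P - 2 * σ * x) * w a +
        2 * σ * x * (w a - wr m a) := by ring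
    have hwa : 0 ≤ w a := hWrb.1 _ _
    have i1 : |SH t a x - P * w a| ≤ (∑ τ ∈ Finset.range t, ∑ l ∈ Finset.range (τ + 1),
        (if (2 : ℝ) ^ τ ≤ x * 3 ^ l ∧ TP (mx x) τ l then
          |(uT τ l a : ℝ) - (τ.choose l : ℝ) / 3 ^ l * w a| else 0)) +
      (∑ τ ∈ Finset.range t, ∑ l ∈ Finset.range (τ + 1),
        (if (2 : ℝ) ^ τ ≤ x * 3 ^ l ∧ ¬ TP (mx x) τ l then (uT τ l a : ℝ) else 0)) := by
      rw [SH, hP, Finset.sum_mul, ← Finset.sum_sub_distrib, ← Finset.sum_add_distrib]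
      refine (Finset.abs_sum_le_sum_abs _ _).trans (Finset.sum_le_sum fun τ _ => ?_)
      rw [Finset.sum_mul, ← Finset.sum_sub_distrib, ← Finset.sum_add_distrib]
      refine (Finset.abs_sum_le_sum_abs _ _).trans (Finset.sum_le_sum fun l _ => ?_)
      have hu : (0 : ℝ) ≤ (uT τ l a : ℝ) := Nat.cast_nonneg _
      by_cases hA : (2 : ℝ) ^ τ ≤ x * 3 ^ l <;> by_cases hB : TP (mx x) τ l <;> simp [hA, hB]
    have i2 : |(P - 2 * σ * x) * w a| = |P - 2 * σ * x| * w a := by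
      rw [abs_mul, abs_of_nonneg hwa]
    have i3 : |2 * σ * x * (w a - wr m a)| ≤ 2 * σ * x * VR m (mx x) a := by
      rw [abs_mul, abs_of_nonneg (by positivity : (0 : ℝ) ≤ 2 * σ * x)]
      exact mul_le_mul_of_nonneg_left (hVrb.1 m (mx x) (mx x) a hmm le_rfl) (by positivity)
    rw [e]
    refine (abs_add_three _ _ _).trans ?_
    rw [i2]
    linarith
  -- the sums over the period
  have s1 : ∑ a ∈ Finset.Icc 1 (3 ^ N), (∑ τ ∈ Finset.range t, ∑ l ∈ Finset.range (τ + 1),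
        (if (2 : ℝ) ^ τ ≤ x * 3 ^ l ∧ TP (mx x) τ l then
          |(uT τ l a : ℝ) - (τ.choose l : ℝ) / 3 ^ l * w a| else 0)) ≤
      3 ^ N * (δ * TM t x + δ * x) := by
    refine le_trans (le_of_eq ?_) g4
    rw [Finset.sum_comm]
    refine Finset.sum_congr rfl fun τ _ => ?_
    rw [Finset.sum_comm]
    refine Finset.sum_congr rfl fun l _ => ?_
    by_cases hA : (2 : ℝ) ^ τ ≤ x * 3 ^ l ∧ TP (mx x) τ l
    · simp only [if_pos hA]
    · simp only [if_neg hA, Finset.sum_const_zero]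
  have s2 : ∑ a ∈ Finset.Icc 1 (3 ^ N), (∑ τ ∈ Finset.range t, ∑ l ∈ Finset.range (τ + 1),
        (if (2 : ℝ) ^ τ ≤ x * 3 ^ l ∧ ¬ TP (mx x) τ l then (uT τ l a : ℝ) else 0)) =
      3 ^ N * R := by
    rw [Finset.sum_comm, hR, Finset.mul_sum]
    refine Finset.sum_congr rfl fun τ hτ => ?_
    rw [Finset.sum_comm, Finset.mul_sum]
    refine Finset.sum_congr rfl fun l hl => ?_
    have hlN : l ≤ N := by
      rw [Finset.mem_range] at hτ hl
      omega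
    by_cases hA : (2 : ℝ) ^ τ ≤ x * 3 ^ l ∧ ¬ TP (mx x) τ l
    · simp only [if_pos hA]
      exact sum_uT hSmu hAva hlN
    · simp only [if_neg hA, Finset.sum_const_zero, mul_zero]
  have s3 : ∑ a ∈ Finset.Icc 1 (3 ^ N), |P - 2 * σ * x| * w a ≤ 3 ^ N * (2 * δ * x) := by
    rw [← Finset.mul_sum, sum_lv hAva (hWrb.2.1 (mx x)).1 hmN]
    have hav := (hWrb.2.1 (mx x)).2
    calc |P - 2 * σ * x| * (3 ^ N * av (mx x) (wr (mx x)))
        ≤ |P - 2 * σ * x| * (3 ^ N * 1) := by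
          apply mul_le_mul_of_nonneg_left _ (abs_nonneg _)
          exact mul_le_mul_of_nonneg_left hav h3N.le
      _ = 3 ^ N * |P - 2 * σ * x| := by ring
      _ ≤ 3 ^ N * (2 * δ * x) := mul_le_mul_of_nonneg_left hPx h3N.le
  have s4 : ∑ a ∈ Finset.Icc 1 (3 ^ N), 2 * σ * x * VR m (mx x) a ≤ 3 ^ N * (ε / 2 * x) := by
    rw [← Finset.mul_sum, sum_lv hAva (hC m (mx x) hmm).1 hmN]
    have hav := (hC m (mx x) hmm).2
    rw [pow_one] at hav
    have hm1 : (0 : ℝ) < (m : ℝ) + 1 := by positivity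
    have hb : 2 * σ * (C / ((m : ℝ) + 1)) ≤ ε / 2 := by
      have hmr : 4 * σ * C / ε < (m : ℝ) + 1 := by
        have : (m0 : ℝ) ≤ m := by exact_mod_cast hm
        linarith
      rw [div_lt_iff₀ hε] at hmr
      rw [← mul_div_assoc, div_le_iff₀ hm1]
      nlinarith
    calc 2 * σ * x * (3 ^ N * av (mx x) (VR m (mx x)))
        ≤ 2 * σ * x * (3 ^ N * (C / ((m : ℝ) + 1))) := by
          apply mul_le_mul_of_nonneg_left _ (by positivity)
          exact mul_le_mul_of_nonneg_left hav h3N.le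
      _ = 3 ^ N * (2 * σ * (C / ((m : ℝ) + 1)) * x) := by ring
      _ ≤ 3 ^ N * (ε / 2 * x) := by
          apply mul_le_mul_of_nonneg_left _ h3N.le
          exact mul_le_mul_of_nonneg_right hb hx0.le
  have hTM : TM t x ≤ (2 * σ + 1) * x := by
    have := (abs_le.1 g1).2
    linarith
  calc ∑ a ∈ Finset.Icc 1 (3 ^ N), |SH t a x - 2 * σ * x * wr m a|
      ≤ ∑ a ∈ Finset.Icc 1 (3 ^ N), ((∑ τ ∈ Finset.range t, ∑ l ∈ Finset.range (τ + 1),
        (if (2 : ℝ) ^ τ ≤ x * 3 ^ l ∧ TP (mx x) τ l then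
          |(uT τ l a : ℝ) - (τ.choose l : ℝ) / 3 ^ l * w a| else 0)) +
      (∑ τ ∈ Finset.range t, ∑ l ∈ Finset.range (τ + 1),
        (if (2 : ℝ) ^ τ ≤ x * 3 ^ l ∧ ¬ TP (mx x) τ l then (uT τ l a : ℝ) else 0)) +
      |P - 2 * σ * x| * w a + 2 * σ * x * VR m (mx x) a) :=
        Finset.sum_le_sum fun a _ => hpt a
    _ ≤ 3 ^ N * (δ * TM t x + δ * x) + 3 ^ N * R + 3 ^ N * (2 * δ * x) +
        3 ^ N * (ε / 2 * x) := by
        rw [Finset.sum_add_distrib, Finset.sum_add_distrib, Finset.sum_add_distrib]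
        linarith
    _ ≤ 3 ^ N * (δ * ((2 * σ + 1) * x) + δ * x) + 3 ^ N * (δ * x) + 3 ^ N * (2 * δ * x) +
        3 ^ N * (ε / 2 * x) := by
        have j1 : δ * TM t x ≤ δ * ((2 * σ + 1) * x) := mul_le_mul_of_nonneg_left hTM hδ.le
        have j2 : 3 ^ N * (δ * TM t x + δ * x) ≤ 3 ^ N * (δ * ((2 * σ + 1) * x) + δ * x) :=
          mul_le_mul_of_nonneg_left (by linarith) h3N.le
        have j3 : 3 ^ N * R ≤ 3 ^ N * (δ * x) := mul_le_mul_of_nonneg_left g3 h3N.le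
        linarith
    _ = (δ * (2 * (2 * σ + 5)) / 2 + ε / 2) * x * 3 ^ N := by ring
    _ = ε * x * 3 ^ N := by
        have : δ * (2 * (2 * σ + 5)) = ε := by
          rw [hδdef]
          field_simp
        rw [this]
        ring

end Pool.Agent.WR4.H19
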